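import Pool.Agent.Lib.MP_4d8715_gt.KR.A.Defs

/-! # Binary digits of real numbers (module A-BITS)

`bits x` is the set of the positions of the digits 1 of the fractional part of `x`.
Proofs. `mem_bits_iff`: `⌊2^(j+1) x⌋ = ⌊2^v x⌋ / 2^(v-1-j)` (`Int.floor_natCast..`/`Int.floor_div..`: for
`y = 2^v x` and `d = 2^(v-1-j) > 0` one has `⌊y / d⌋ = ⌊y⌋ / d`). -/

namespace Pool.Agent.Lib.MP_4d8715_gt.KR

open Set

/-- positions of the digits 1 of the fractional part of `x` -/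
noncomputable def bits (x : ℝ) : Set ℕ := {j | Odd ⌊(2 : ℝ) ^ (j + 1) * x⌋}

/-- the digits of the integer `n` at level `v` -/
def dig (v : ℕ) (n : ℤ) : Set ℕ := {j | Odd (n / 2 ^ (v - 1 - j))}

theorem mem_bits_iff (x : ℝ) (v j : ℕ) (h : j < v) :
    j ∈ bits x ↔ j ∈ dig v ⌊(2 : ℝ) ^ v * x⌋ := by
  have key : ⌊(2 : ℝ) ^ (j + 1) * x⌋ = ⌊(2 : ℝ) ^ v * x⌋ / 2 ^ (v - 1 - j) := by
    have h1 : (2 : ℝ) ^ (j + 1) * x = ((2 : ℝ) ^ v * x) / ((2 ^ (v - 1 - j) : ℕ) : ℝ) := by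
      rw [eq_div_iff (by positivity)]
      push_cast
      have h2 : v = (j + 1) + (v - 1 - j) := by omega
      conv_rhs => rw [h2, pow_add]
      have h3 : j + 1 + (v - 1 - j) - 1 - j = v - 1 - j := by omega
      ring
    rw [h1, Int.floor_div_natCast]
    push_cast
    rfl
  show Odd _ ↔ Odd _
  rw [key]

/-- the open set attached to the finite set `S` of integers at level `v` -/
def opn (v : ℕ) (S : Finset ℤ) : Set ℝ :=
  {x | ∃ i ∈ S, ((i : ℝ) - 1) / 2 ^ v < x ∧ x < ((i : ℝ) + 2) / 2 ^ v}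

theorem isOpen_opn (v : ℕ) (S : Finset ℤ) : IsOpen (opn v S) := by
  have : opn v S = ⋃ i ∈ S, Ioo (((i : ℝ) - 1) / 2 ^ v) (((i : ℝ) + 2) / 2 ^ v) := by
    ext x
    simp only [opn, mem_setOf_eq, mem_iUnion, mem_Ioo, exists_prop]
  rw [this]
  exact isOpen_iUnion fun i => isOpen_iUnion fun _ => isOpen_Ioo

theorem mem_opn_of_floor (v : ℕ) (S : Finset ℤ) (x : ℝ) (h : ⌊(2 : ℝ) ^ v * x⌋ ∈ S) :
    x ∈ opn v S := by
  have hp : (0 : ℝ) < 2 ^ v := by positivity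
  refine ⟨_, h, ?_, ?_⟩
  · rw [div_lt_iff₀ hp]
    have := Int.floor_le ((2 : ℝ) ^ v * x)
    linarith
  · rw [lt_div_iff₀ hp]
    have := Int.lt_floor_add_one ((2 : ℝ) ^ v * x)
    linarith

theorem floor_of_mem_opn (v : ℕ) (S : Finset ℤ) (x : ℝ) (h : x ∈ opn v S) :
    ∃ i ∈ S, ⌊(2 : ℝ) ^ v * x⌋ = i - 1 ∨ ⌊(2 : ℝ) ^ v * x⌋ = i ∨ ⌊(2 : ℝ) ^ v * x⌋ = i + 1 := by
  have hp : (0 : ℝ) < 2 ^ v := by positivity
  obtain ⟨i, hi, h1, h2⟩ := h
  rw [div_lt_iff₀ hp] at h1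
  rw [lt_div_iff₀ hp] at h2
  refine ⟨i, hi, ?_⟩
  have h3 : i - 1 ≤ ⌊(2 : ℝ) ^ v * x⌋ := by
    rw [Int.le_floor]; push_cast; linarith
  have h4 : ⌊(2 : ℝ) ^ v * x⌋ < i + 2 := by
    rw [Int.floor_lt]; push_cast; linarith
  omega

/-- `x ∈ opn v S` with `3 * #S ≤ k` gives at most `k` possible digit patterns: there are sets
`P i` (`i < k`), depending only on `v`, `S`, `k`, one of which agrees with `bits x` below `v`. -/
theorem exists_patterns (v k : ℕ) (S : Finset ℤ) (hS : 3 * S.card ≤ k) :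
    ∃ P : ℕ → Set ℕ, ∀ x ∈ opn v S, ∃ i < k, ∀ j < v, (j ∈ bits x ↔ j ∈ P i) := by
  classical
  set T : Finset ℤ := S.image (fun i => i - 1) ∪ (S ∪ S.image (fun i => i + 1)) with hT
  have hTc : T.card ≤ k := by
    refine le_trans ?_ hS
    refine (Finset.card_union_le _ _).trans ?_
    have h1 := Finset.card_union_le S (S.image (fun i => i + 1))
    have h2 : (S.image (fun i => i - 1)).card ≤ S.card := Finset.card_image_le
    have h3 : (S.image (fun i => i + 1)).card ≤ S.card := Finset.card_image_le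
    omega
  refine ⟨fun i => dig v (T.toList.getD i 0), fun x hx => ?_⟩
  obtain ⟨i, hi, hfl⟩ := floor_of_mem_opn v S x hx
  have hmem : ⌊(2 : ℝ) ^ v * x⌋ ∈ T := by
    rw [hT, Finset.mem_union, Finset.mem_union, Finset.mem_image, Finset.mem_image]
    rcases hfl with h | h | h
    · exact Or.inl ⟨i, hi, h.symm⟩
    · rw [h]; exact Or.inr (Or.inl hi)
    · exact Or.inr (Or.inr ⟨i, hi, h.symm⟩)
  rw [← Finset.mem_toList] at hmem
  obtain ⟨n, hn, hn'⟩ := List.getElem_of_mem hmem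
  refine ⟨n, ?_, fun j hj => ?_⟩
  · rw [Finset.length_toList] at hn
    omega
  · rw [mem_bits_iff x v j hj]
    simp only
    rw [List.getD_eq_getElem _ _ hn, hn']

end Pool.Agent.Lib.MP_4d8715_gt.KR
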