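import Mathlib

/-!
# Gamma-sets and the two combinatorial principles

Definitions for the theorem that (KL) and (TC) imply that there is an uncountable gamma-set of reals
and that the product of a gamma-set of reals with a set of Hausdorff dimension zero has Hausdorff
dimension zero.
-/

namespace Pool.Agent.Lib.MP_4d8715_gt.KR

open Set

/-- an open `ω`-cover of the space `X` -/
def IsOmegaCover {X : Type*} [TopologicalSpace X] (U : Set (Set X)) : Prop :=
  (∀ u ∈ U, IsOpen u) ∧ ⋃₀ U = univ ∧ univ ∉ U ∧ ∀ F : Finset X, ∃ u ∈ U, (F : Set X) ⊆ u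

/-- an open `γ`-cover of the space `X` -/
def IsGammaCover {X : Type*} [TopologicalSpace X] (U : Set (Set X)) : Prop :=
  (∀ u ∈ U, IsOpen u) ∧ ⋃₀ U = univ ∧ univ ∉ U ∧ U.Infinite ∧ ∀ x : X, {u ∈ U | x ∉ u}.Finite

/-- the selection principle `S₁(Ω, Γ)` -/
def IsGammaSpace (X : Type*) [TopologicalSpace X] : Prop :=
  ∀ U : ℕ → Set (Set X), (∀ n, IsOmegaCover (U n)) →
    ∃ u : ℕ → Set X, (∀ n, u n ∈ U n) ∧ IsGammaCover (range u)

/-- the product of two sets of reals as a subset of the Euclidean plane -/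
def prodSet (X Y : Set ℝ) : Set (EuclideanSpace ℝ (Fin 2)) := {p | p 0 ∈ X ∧ p 1 ∈ Y}

/-- (i) there is an uncountable gamma-set of reals -/
def StatementI : Prop := ∃ X : Set ℝ, ¬ X.Countable ∧ IsGammaSpace X

/-- (ii) the product of a gamma-set of reals and a set of reals of Hausdorff dimension zero has
Hausdorff dimension zero -/
def StatementII : Prop :=
  ∀ X Y : Set ℝ, IsGammaSpace X → dimH Y = 0 → dimH (prodSet X Y) = 0

/-- `X` is thin: for every `l : ℕ → ℕ` there are an infinite set `b` and, for each `k`, sets `S k i`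
(`i < k`) such that for every `x ∈ X` and all but finitely many `k ∈ b` the set `x` agrees below
`l k` with one of the `S k i`, `i < k`. -/
def Thin (X : Set (Set ℕ)) : Prop :=
  ∀ l : ℕ → ℕ, ∃ b : Set ℕ, b.Infinite ∧ ∃ S : ℕ → ℕ → Set ℕ, ∀ x ∈ X, ∃ m, ∀ k ∈ b, m < k →
    ∃ i < k, ∀ j < l k, (j ∈ x ↔ j ∈ S k i)

/-- `X` is captured: there are sets `S L i` (`i < L`) such that for every `x ∈ X` and all but
finitely many `L` the set `x` agrees below `L` with one of the `S L i`, `i < L`. -/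
def Capt (X : Set (Set ℕ)) : Prop :=
  ∃ S : ℕ → ℕ → Set ℕ, ∀ x ∈ X, ∃ m, ∀ L, m < L → ∃ i < L, ∀ j < L, (j ∈ x ↔ j ∈ S L i)

/-- every thin set is captured -/
def TC : Prop := ∀ X : Set (Set ℕ), Thin X → Capt X

/-- there is an uncountable set `X` of subsets of `ℕ` such that, for every `g : ℕ → ℕ`, only
countably many members of `X` meet all but finitely many of the intervals `(k, g k]` -/
def KL : Prop :=
  ∃ X : Set (Set ℕ), ¬ X.Countable ∧
    ∀ g : ℕ → ℕ, {x ∈ X | ∃ m, ∀ k, m < k → ∃ j ∈ x, k < j ∧ j ≤ g k}.Countable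

end Pool.Agent.Lib.MP_4d8715_gt.KR
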