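import Pool.Agent.Lib.MP_4d8715_gt.KR.A.Defs

/-! # Transfer to the real line (module A-EMB)

* `gamma_of_homeo`: the gamma-property is invariant under homeomorphisms (pull the covers back).
* `exists_embedding`: the Cantor space embeds into `ℝ` (`Cardinal.cantorFunction (1/3)` is continuous by
  `continuous_tsum` and injective; an injective continuous map from a compact space to a Hausdorff
  space is a closed embedding). -/

namespace Pool.Agent.Lib.MP_4d8715_gt.KR

open Set

theorem gamma_of_homeo {X Y : Type*} [TopologicalSpace X] [TopologicalSpace Y] (e : X ≃ₜ Y)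
    (hX : IsGammaSpace X) : IsGammaSpace Y := by
  classical
  have hinj : Function.Injective (fun u : Set Y => e ⁻¹' u) := e.surjective.preimage_injective
  intro U hU
  obtain ⟨u', hu', h1, h2, h3, h4, h5⟩ := hX (fun n => (fun u : Set Y => e ⁻¹' u) '' U n) (by
    intro n
    obtain ⟨g1, g2, g3, g4⟩ := hU n
    refine ⟨?_, ?_, ?_, ?_⟩
    · rintro _ ⟨u, hu, rfl⟩
      exact (g1 u hu).preimage e.continuous
    · rw [eq_univ_iff_forall]
      intro x
      have : e x ∈ ⋃₀ U n := by rw [g2]; trivial
      obtain ⟨u, hu, hx⟩ := this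
      exact ⟨_, ⟨u, hu, rfl⟩, hx⟩
    · rintro ⟨u, hu, hx⟩
      apply g3
      have : u = univ := by
        apply hinj
        simp only at hx ⊢
        rw [hx, preimage_univ]
      rw [← this]; exact hu
    · intro F
      obtain ⟨u, hu, hF⟩ := g4 (F.image e)
      refine ⟨_, ⟨u, hu, rfl⟩, ?_⟩
      intro x hx
      apply hF
      rw [Finset.mem_coe, Finset.mem_image]
      exact ⟨x, hx, rfl⟩)
  choose v hv hv' using hu'
  simp only at hv'
  refine ⟨v, hv, ?_, ?_, ?_, ?_, ?_⟩
  · rintro _ ⟨n, rfl⟩
    exact (hU n).1 _ (hv n)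
  · rw [eq_univ_iff_forall]
    intro y
    have : e.symm y ∈ ⋃₀ range u' := by rw [h2]; trivial
    obtain ⟨_, ⟨n, rfl⟩, hx⟩ := this
    refine ⟨_, ⟨n, rfl⟩, ?_⟩
    rw [← hv' n, mem_preimage, e.apply_symm_apply] at hx
    exact hx
  · rintro ⟨n, hn⟩
    exact (hU n).2.2.1 (hn ▸ hv n)
  · have : (fun u : Set Y => e ⁻¹' u) '' range v = range u' := by
      rw [← range_comp]
      congr 1
      funext n
      exact hv' n
    rw [← this] at h4
    exact Infinite.of_image _ h4
  · intro y
    have h6 := h5 (e.symm y)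
    apply Set.Finite.of_finite_image (f := fun u : Set Y => e ⁻¹' u) _ hinj.injOn
    apply h6.subset
    rintro _ ⟨u, ⟨⟨n, rfl⟩, hy⟩, rfl⟩
    refine ⟨⟨n, (hv' n).symm⟩, ?_⟩
    simp only [mem_preimage, e.apply_symm_apply]
    exact hy

theorem exists_embedding : ∃ e : (ℕ → Bool) → ℝ, Topology.IsEmbedding e := by
  refine ⟨Cardinal.cantorFunction (1 / 3), ?_⟩
  have hc : Continuous (Cardinal.cantorFunction (1 / 3)) := by
    unfold Cardinal.cantorFunction
    apply continuous_tsum (u := fun n : ℕ => ((1 : ℝ) / 3) ^ n)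
    · intro n
      have : (fun f : ℕ → Bool => Cardinal.cantorFunctionAux (1 / 3) f n) =
          (fun b : Bool => cond b ((1 / 3 : ℝ) ^ n) 0) ∘ (fun f : ℕ → Bool => f n) := by
        funext f; rfl
      rw [this]
      exact (continuous_of_discreteTopology).comp (continuous_apply n)
    · exact summable_geometric_of_lt_one (by norm_num) (by norm_num)
    · intro n f
      unfold Cardinal.cantorFunctionAux
      cases f n
      · simp
      · simp
  exact (hc.isClosedEmbedding
    (Cardinal.cantorFunction_injective (by norm_num) (by norm_num))).isEmbedding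

/-- a gamma-subspace of the Cantor space gives a gamma-set of reals of the same size -/
theorem gamma_real (Z : Set (ℕ → Bool)) (hZ : IsGammaSpace Z) (hu : ¬ Z.Countable) :
    ∃ X : Set ℝ, ¬ X.Countable ∧ IsGammaSpace X := by
  obtain ⟨e, he⟩ := exists_embedding
  refine ⟨e '' Z, ?_, gamma_of_homeo (he.homeomorphImage Z) hZ⟩
  intro h
  exact hu (countable_of_injective_of_countable_image he.injective.injOn h)

end Pool.Agent.Lib.MP_4d8715_gt.KR
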