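import Pool.Agent.Lib.MP_4d8715_gt.KR.A.Bits

/-! # Gamma-sets of reals are thin (module A-THIN)

Proof (section 2.1 of `KR_paper.md`). Let `l` be given. For `k : ℕ` let
`𝒰 k = {(opn (l k) S) ∩ X : 3 * #S ≤ k, S ⊆ Finset.Icc (-(k 2^(l k))) (k 2^(l k))}`, a finite set of open
subsets of `X`. If for infinitely many `k` some member of `𝒰 k` is `univ`: `b` = these `k`, patterns
from `exists_patterns`. Otherwise there is `k0` with `univ ∉ 𝒰 k` for `k ≥ k0`; `𝒰 = ⋃_{k ≥ k0} 𝒰 k` is an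
omega-cover; apply the gamma-property to the constant sequence `𝒰`; the range of the selection is
infinite, each `𝒰 k` is finite, so `b = {k : range u meets 𝒰 k}` is infinite; patterns again. -/

namespace Pool.Agent.Lib.MP_4d8715_gt.KR

open Set

/-- the open subsets of `X` given by few short intervals at level `l k` -/
def gthU (X : Set ℝ) (l : ℕ → ℕ) (k : ℕ) : Set (Set X) :=
  {w | ∃ S : Finset ℤ, 3 * S.card ≤ k ∧
    S ⊆ Finset.Icc (-((k : ℤ) * 2 ^ (l k))) ((k : ℤ) * 2 ^ (l k)) ∧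
    w = Subtype.val ⁻¹' (opn (l k) S)}

theorem gthU_finite (X : Set ℝ) (l : ℕ → ℕ) (k : ℕ) : (gthU X l k).Finite := by
  classical
  apply Set.Finite.subset
    (((Finset.Icc (-((k : ℤ) * 2 ^ (l k))) ((k : ℤ) * 2 ^ (l k))).powerset.finite_toSet).image
      (fun S : Finset ℤ => (Subtype.val ⁻¹' (opn (l k) S) : Set X)))
  rintro w ⟨S, _, hS, rfl⟩
  exact ⟨S, Finset.mem_coe.mpr (Finset.mem_powerset.mpr hS), rfl⟩

theorem gthU_isOpen (X : Set ℝ) (l : ℕ → ℕ) (k : ℕ) (w : Set X) (hw : w ∈ gthU X l k) :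
    IsOpen w := by
  obtain ⟨S, _, _, rfl⟩ := hw
  exact (isOpen_opn (l k) S).preimage continuous_subtype_val

theorem gthU_cover (X : Set ℝ) (l : ℕ → ℕ) (k0 : ℕ) (F : Finset X) :
    ∃ k, k0 ≤ k ∧ ∃ w ∈ gthU X l k, (F : Set X) ⊆ w := by
  classical
  set k := max k0 (max (3 * F.card) (F.sup (fun x : X => ⌈|(x : ℝ)|⌉₊))) with hk
  have h1 : k0 ≤ k := le_max_left _ _
  have h2 : 3 * F.card ≤ k := (le_max_left _ _).trans (le_max_right _ _)
  have h3 : ∀ x ∈ F, |(x : ℝ)| ≤ k := by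
    intro x hx
    have h4 : ⌈|(x : ℝ)|⌉₊ ≤ k :=
      (Finset.le_sup (f := fun x : X => ⌈|(x : ℝ)|⌉₊) hx).trans
        ((le_max_right _ _).trans (le_max_right _ _))
    exact (Nat.le_ceil _).trans (by exact_mod_cast h4)
  set S : Finset ℤ := F.image (fun x : X => ⌊(2 : ℝ) ^ (l k) * (x : ℝ)⌋) with hS
  refine ⟨k, h1, _, ⟨S, ?_, ?_, rfl⟩, ?_⟩
  · have : S.card ≤ F.card := Finset.card_image_le
    omega
  · intro i hi
    rw [hS, Finset.mem_image] at hi
    obtain ⟨x, hx, rfl⟩ := hi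
    have h5 := abs_le.mp (h3 x hx)
    have hp : (0 : ℝ) < 2 ^ (l k) := by positivity
    rw [Finset.mem_Icc]
    constructor
    · rw [Int.le_floor]
      push_cast
      nlinarith [h5.1]
    · have h6 : ((⌊(2 : ℝ) ^ (l k) * (x : ℝ)⌋ : ℤ) : ℝ) ≤ (((k : ℤ) * 2 ^ (l k) : ℤ) : ℝ) := by
        refine (Int.floor_le _).trans ?_
        push_cast
        nlinarith [h5.2]
      exact_mod_cast h6
  · intro x hx
    exact mem_opn_of_floor _ _ _ (Finset.mem_image_of_mem _ hx)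

theorem gammaThin_aux (X : Set ℝ) (l : ℕ → ℕ) (b : Set ℕ) (hb : b.Infinite)
    (S : ℕ → Finset ℤ) (hS : ∀ k ∈ b, 3 * (S k).card ≤ k)
    (h : ∀ x ∈ X, ∃ m, ∀ k ∈ b, m < k → x ∈ opn (l k) (S k)) :
    ∃ b : Set ℕ, b.Infinite ∧ ∃ P : ℕ → ℕ → Set ℕ, ∀ x ∈ bits '' X, ∃ m, ∀ k ∈ b, m < k →
      ∃ i < k, ∀ j < l k, (j ∈ x ↔ j ∈ P k i) := by
  classical
  refine ⟨b, hb, ?_⟩
  have hP : ∀ k, ∃ P : ℕ → Set ℕ, k ∈ b → ∀ x ∈ opn (l k) (S k), ∃ i < k,
      ∀ j < l k, (j ∈ bits x ↔ j ∈ P i) := by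
    intro k
    by_cases hk : k ∈ b
    · obtain ⟨P, hP⟩ := exists_patterns (l k) k (S k) (hS k hk)
      exact ⟨P, fun _ => hP⟩
    · exact ⟨fun _ => ∅, fun h => absurd h hk⟩
  choose P hP using hP
  refine ⟨P, ?_⟩
  rintro _ ⟨x, hx, rfl⟩
  obtain ⟨m, hm⟩ := h x hx
  exact ⟨m, fun k hk hmk => hP k hk x (hm k hk hmk)⟩

theorem thin_of_gamma (X : Set ℝ) (hX : IsGammaSpace X) : Thin (bits '' X) := by
  classical
  intro l
  by_cases hinf : {k | univ ∈ gthU X l k}.Infinite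
  · have hS : ∀ k, ∃ S : Finset ℤ, univ ∈ gthU X l k →
        3 * S.card ≤ k ∧ (univ : Set X) = Subtype.val ⁻¹' (opn (l k) S) := by
      intro k
      by_cases hk : univ ∈ gthU X l k
      · obtain ⟨S, h1, _, h3⟩ := hk
        exact ⟨S, fun _ => ⟨h1, h3⟩⟩
      · exact ⟨∅, fun h => absurd h hk⟩
    choose S hS using hS
    refine gammaThin_aux X l _ hinf S (fun k hk => (hS k hk).1) ?_
    intro x hx
    refine ⟨0, fun k hk _ => ?_⟩
    have h1 : (⟨x, hx⟩ : X) ∈ (univ : Set X) := mem_univ _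
    rw [(hS k hk).2] at h1
    exact h1
  · rw [Set.not_infinite] at hinf
    obtain ⟨K, hK⟩ := hinf.bddAbove
    set k0 := K + 1 with hk0
    have hno : ∀ k, k0 ≤ k → univ ∉ gthU X l k := by
      intro k hk hmem
      have := hK hmem
      omega
    set V : Set (Set X) := {w | ∃ k, k0 ≤ k ∧ w ∈ gthU X l k} with hV
    have hVω : IsOmegaCover V := by
      have hF : ∀ F : Finset X, ∃ u ∈ V, (F : Set X) ⊆ u := by
        intro F
        obtain ⟨k, hk, w, hw, hFw⟩ := gthU_cover X l k0 F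
        exact ⟨w, ⟨k, hk, hw⟩, hFw⟩
      refine ⟨?_, ?_, ?_, hF⟩
      · rintro u ⟨k, _, hu⟩
        exact gthU_isOpen X l k u hu
      · apply eq_univ_of_forall
        intro x
        obtain ⟨u, hu, hxu⟩ := hF {x}
        exact ⟨u, hu, hxu (by simp)⟩
      · rintro ⟨k, hk, hu⟩
        exact hno k hk hu
    obtain ⟨u, huV, _, _, _, huinf, hufin⟩ := hX (fun _ => V) (fun _ => hVω)
    -- the level of a member of `V`
    have hlev : ∀ w : Set X, ∃ k, w ∈ V → k0 ≤ k ∧ w ∈ gthU X l k := by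
      intro w
      by_cases hw : w ∈ V
      · obtain ⟨k, h1, h2⟩ := hw
        exact ⟨k, fun _ => ⟨h1, h2⟩⟩
      · exact ⟨0, fun h => absurd h hw⟩
    choose lev hlev using hlev
    have hru : ∀ w ∈ range u, w ∈ V := by
      rintro _ ⟨n, rfl⟩
      exact huV n
    set b : Set ℕ := lev '' range u with hb
    have hbinf : b.Infinite := by
      intro hfin
      apply huinf
      apply (hfin.biUnion (fun k _ => gthU_finite X l k)).subset
      intro w hw
      exact mem_biUnion (mem_image_of_mem lev hw) (hlev w (hru w hw)).2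
    have hwk : ∀ k, ∃ w : Set X, k ∈ b → w ∈ range u ∧ lev w = k := by
      intro k
      by_cases hk : k ∈ b
      · obtain ⟨w, h1, h2⟩ := hk
        exact ⟨w, fun _ => ⟨h1, h2⟩⟩
      · exact ⟨∅, fun h => absurd h hk⟩
    choose wk hwk using hwk
    have hS : ∀ k, ∃ S : Finset ℤ, k ∈ b →
        3 * S.card ≤ k ∧ wk k = Subtype.val ⁻¹' (opn (l k) S) := by
      intro k
      by_cases hk : k ∈ b
      · have h1 := hwk k hk
        have h2 := (hlev (wk k) (hru _ h1.1)).2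
        rw [h1.2] at h2
        obtain ⟨S, h3, _, h5⟩ := h2
        exact ⟨S, fun _ => ⟨h3, h5⟩⟩
      · exact ⟨∅, fun h => absurd h hk⟩
    choose S hS using hS
    refine gammaThin_aux X l b hbinf S (fun k hk => (hS k hk).1) ?_
    intro x hx
    have hfin : {k ∈ b | (⟨x, hx⟩ : X) ∉ wk k}.Finite := by
      apply Set.Finite.of_finite_image (f := wk)
      · apply (hufin ⟨x, hx⟩).subset
        rintro _ ⟨k, ⟨hk, hxk⟩, rfl⟩
        exact ⟨(hwk k hk).1, hxk⟩
      · intro k hk k' hk' h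
        rw [← (hwk k hk.1).2, ← (hwk k' hk'.1).2, h]
    obtain ⟨m, hm⟩ := hfin.bddAbove
    refine ⟨m, fun k hk hmk => ?_⟩
    by_contra hcon
    have : k ≤ m := by
      apply hm
      refine ⟨hk, fun hxw => hcon ?_⟩
      rw [(hS k hk).2] at hxw
      exact hxw
    omega

end Pool.Agent.Lib.MP_4d8715_gt.KR
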