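import Pool.Agent.Lib.MP_4d8715_gt.KR.A.Tower

/-! # The union of the tower and the finite sets is a gamma-space (module A-GT)

Points of the Cantor space are functions `ℕ → Bool`; `chi t` is the characteristic function of `t`.

* `step`: one step of the recursion: `U` an open omega-cover of `Z ⊆ (ℕ → Bool)`, all finite sets belong
  to `Z`; for every `m` and finite `F ⊆ Z` there are `u ∈ U` and `m' > m` such that `F ⊆ u` and every
  `z ∈ Z` which vanishes on `[m, m')` belongs to `u`. (the finitely many points supported in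
  `[0, m)` together with `F` lie in one `u ∈ U`; `u` is open.)
* `gamma_tower`: section 2.3 of `KR_paper.md`. -/

namespace Pool.Agent.Lib.MP_4d8715_gt.KR

open Set

/-- characteristic function -/
noncomputable def chi (t : Set ℕ) : ℕ → Bool := by
  classical exact fun n => decide (n ∈ t)

private theorem GammaTower_chi_false (t : Set ℕ) (n : ℕ) : chi t n = false ↔ n ∉ t := by
  simp [chi]

private theorem GammaTower_nbhd {Z : Set (ℕ → Bool)} (u : Set Z) (hu : IsOpen u) (x : Z)
    (hx : x ∈ u) : ∃ N, ∀ z : Z, (∀ n < N, z.1 n = x.1 n) → z ∈ u := by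
  obtain ⟨V, hV, rfl⟩ := isOpen_induced_iff.1 hu
  obtain ⟨I, w, hw, hsub⟩ := isOpen_pi_iff.1 hV x.1 hx
  refine ⟨I.sup id + 1, fun z hz => hsub ?_⟩
  intro i hi
  have h1 : i < I.sup id + 1 := Nat.lt_succ_of_le (Finset.le_sup (f := id) hi)
  rw [hz i h1]
  exact (hw i hi).2

theorem step (Z : Set (ℕ → Bool)) (hfin : ∀ t : Set ℕ, t.Finite → chi t ∈ Z)
    (U : Set (Set Z)) (hU : IsOmegaCover U) (F : Finset Z) (m : ℕ) :
    ∃ u ∈ U, (F : Set Z) ⊆ u ∧ ∃ m' > m, ∀ z : Z, (∀ n ∈ Ico m m', z.1 n = false) → z ∈ u := by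
  classical
  set p : Finset ℕ → Z := fun s => ⟨chi ↑s, hfin _ s.finite_toSet⟩ with hp
  obtain ⟨u, huU, hFu⟩ := hU.2.2.2 (F ∪ (Finset.range m).powerset.image p)
  have hpu : ∀ s ∈ (Finset.range m).powerset, p s ∈ u := by
    intro s hs
    apply hFu
    rw [Finset.coe_union]
    exact Or.inr (Finset.mem_coe.2 (Finset.mem_image.2 ⟨s, hs, rfl⟩))
  have hN : ∀ s : Finset ℕ, ∃ N, s ∈ (Finset.range m).powerset →
      ∀ z : Z, (∀ n < N, z.1 n = (p s).1 n) → z ∈ u := by
    intro s
    by_cases hs : s ∈ (Finset.range m).powerset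
    · obtain ⟨N, hN⟩ := GammaTower_nbhd u (hU.1 u huU) (p s) (hpu s hs)
      exact ⟨N, fun _ => hN⟩
    · exact ⟨0, fun h => absurd h hs⟩
  choose N hN using hN
  refine ⟨u, huU, fun x hx => hFu (by rw [Finset.coe_union]; exact Or.inl hx),
    max (m + 1) ((Finset.range m).powerset.sup N), lt_of_lt_of_le (Nat.lt_succ_self m)
      (le_max_left _ _), ?_⟩
  intro z hz
  set s : Finset ℕ := (Finset.range m).filter (fun n => z.1 n = true) with hs
  have hsp : s ∈ (Finset.range m).powerset := Finset.mem_powerset.2 (Finset.filter_subset _ _)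
  apply hN s hsp
  intro n hn
  have hle : N s ≤ max (m + 1) ((Finset.range m).powerset.sup N) :=
    (Finset.le_sup (f := N) hsp).trans (le_max_right _ _)
  by_cases hnm : n < m
  · cases hzn : z.1 n with
    | false =>
      symm
      simp only [hp]
      rw [GammaTower_chi_false]
      intro h
      have := (Finset.mem_filter.1 (Finset.mem_coe.1 h)).2
      rw [hzn] at this
      exact absurd this (by simp)
    | true =>
      symm
      simp only [hp, chi, decide_eq_true_eq]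
      exact Finset.mem_coe.2 (Finset.mem_filter.2 ⟨Finset.mem_range.2 hnm, hzn⟩)
  · have h1 : z.1 n = false := hz n ⟨not_lt.1 hnm, lt_of_lt_of_le hn hle⟩
    rw [h1]
    symm
    simp only [hp]
    rw [GammaTower_chi_false]
    intro h
    exact hnm (Finset.mem_range.1 (Finset.mem_filter.1 (Finset.mem_coe.1 h)).1)

/-- a sequence of sets which eventually contain every point is a gamma-cover -/
private theorem GammaTower_gamma {X : Type*} [TopologicalSpace X] (V : ℕ → Set X)
    (hne : Nonempty X) (hopen : ∀ k, IsOpen (V k)) (hun : ∀ k, V k ≠ univ)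
    (hev : ∀ x, ∃ k0, ∀ k ≥ k0, x ∈ V k) : IsGammaCover (range V) := by
  refine ⟨?_, ?_, ?_, ?_, ?_⟩
  · rintro u ⟨k, rfl⟩
    exact hopen k
  · rw [eq_univ_iff_forall]
    intro x
    obtain ⟨k0, hk0⟩ := hev x
    exact ⟨V k0, ⟨k0, rfl⟩, hk0 k0 le_rfl⟩
  · rintro ⟨k, hk⟩
    exact hun k hk
  · intro hfin
    -- some member occurs infinitely often
    have h1 : ∃ u ∈ range V, {k | V k = u}.Infinite := by
      by_contra hcon
      push Not at hcon
      have h2 : (univ : Set ℕ) ⊆ ⋃ u ∈ range V, {k | V k = u} := by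
        intro k _
        exact mem_biUnion (⟨k, rfl⟩ : V k ∈ range V) rfl
      have h3 : (⋃ u ∈ range V, {k | V k = u}).Finite :=
        hfin.biUnion fun u hu => by
          have := hcon u hu
          exact this
      exact infinite_univ (h3.subset h2)
    obtain ⟨u, ⟨k, hk⟩, hinf⟩ := h1
    apply hun k
    rw [hk, eq_univ_iff_forall]
    intro x
    obtain ⟨k0, hk0⟩ := hev x
    obtain ⟨k', hk', hle⟩ := hinf.exists_gt k0
    have h4 := hk0 k' hle.le
    have h5 : V k' = u := hk'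
    rw [h5] at h4
    exact h4
  · intro x
    obtain ⟨k0, hk0⟩ := hev x
    have h1 : {u ∈ range V | x ∉ u} ⊆ V '' (Iio k0) := by
      rintro u ⟨⟨k, rfl⟩, hx⟩
      refine ⟨k, ?_, rfl⟩
      by_contra hcon
      exact hx (hk0 k (not_lt.1 hcon))
    exact ((finite_Iio k0).image V).subset h1

theorem gamma_tower (W : Type) [LinearOrder W] [WellFoundedLT W]
    (hc : ∀ a : W, (Iio a).Countable) (hu : ¬ (univ : Set W).Countable)
    (T : W → Set ℕ) (hinf : ∀ a, (T a).Infinite) (hdec : ∀ a c, c < a → (T a \ T c).Finite)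
    (hgap : ∀ m : ℕ → ℕ, StrictMono m → ∃ a, {n | T a ∩ Ico (m n) (m (n + 1)) = ∅}.Infinite) :
    IsGammaSpace ((chi '' {t : Set ℕ | t.Finite ∨ ∃ a, t = T a} : Set (ℕ → Bool))) := by
  classical
  set Z : Set (ℕ → Bool) := chi '' {t : Set ℕ | t.Finite ∨ ∃ a, t = T a} with hZ
  have hfin : ∀ t : Set ℕ, t.Finite → chi t ∈ Z := fun t ht => ⟨t, Or.inl ht, rfl⟩
  have hTZ : ∀ a, chi (T a) ∈ Z := fun a => ⟨T a, Or.inr ⟨a, rfl⟩, rfl⟩
  have hcIic : ∀ a : W, (Iic a).Countable := by
    intro a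
    rw [← Iio_union_right]
    exact (hc a).union (countable_singleton a)
  -- upper bounds
  have hbound : ∀ a : ℕ → W, ∃ b, ∀ k, a k < b := by
    intro a
    by_contra hcon
    push Not at hcon
    apply hu
    have h1 : (univ : Set W) ⊆ ⋃ k, Iic (a k) := by
      intro b _
      obtain ⟨k, hk⟩ := hcon b
      exact mem_iUnion.2 ⟨k, hk⟩
    exact (countable_iUnion fun k => hcIic (a k)).mono h1
  have hne : Nonempty W := by
    by_contra hcon
    rw [not_nonempty_iff] at hcon
    exact hu (by rw [univ_eq_empty_iff.2 hcon]; exact countable_empty)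
  -- enumerations
  have henum : ∀ a : W, ∃ y : ℕ → Z, ∀ c < a, ∃ i, (y i).1 = chi (T c) := by
    intro a
    have h1 : ((fun c => (⟨chi (T c), hTZ c⟩ : Z)) '' Iio a ∪ {⟨chi ∅, hfin ∅ finite_empty⟩}).Countable :=
      ((hc a).image _).union (countable_singleton _)
    obtain ⟨y, hy⟩ := h1.exists_eq_range ⟨_, Or.inr rfl⟩
    refine ⟨y, fun c hca => ?_⟩
    have h2 : (⟨chi (T c), hTZ c⟩ : Z) ∈ range y := by
      rw [← hy]
      exact Or.inl ⟨c, hca, rfl⟩
    obtain ⟨i, hi⟩ := h2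
    exact ⟨i, by rw [hi]⟩
  choose y hy using henum
  intro U hU
  -- the steps
  have hstep : ∀ (k : ℕ) (F : Finset Z) (m : ℕ), ∃ (u : Set Z) (m' : ℕ), u ∈ U k ∧
      (F : Set Z) ⊆ u ∧ m < m' ∧ ∀ z : Z, (∀ n ∈ Ico m m', z.1 n = false) → z ∈ u := by
    intro k F m
    obtain ⟨u, h1, h2, m', h3, h4⟩ := step Z hfin (U k) (hU k) F m
    exact ⟨u, m', h1, h2, h3, h4⟩
  choose uu mm huU hFu hmm hvan using hstep
  -- the sequences
  let Fa : W → ℕ → Finset Z := fun a n => (Finset.range (n + 1)).image (y a)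
  let ms : ℕ → W → ℕ → ℕ := fun k a n => Nat.rec 0 (fun n m => mm k (Fa a n) m) n
  have hms : ∀ k a n, ms k a (n + 1) = mm k (Fa a n) (ms k a n) := fun k a n => rfl
  have hmono : ∀ k a, StrictMono (ms k a) := by
    intro k a
    apply strictMono_nat_of_lt_succ
    intro n
    rw [hms]
    exact hmm _ _ _
  have hcc : ∀ (k : ℕ) (a : W), ∃ c, {n | T c ∩ Ico (ms k a n) (ms k a (n + 1)) = ∅}.Infinite :=
    fun k a => hgap _ (hmono k a)
  choose cc hcc using hcc
  -- the sequence `a k`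
  have hnext : ∀ (a b : W), ∃ d, a < d ∧ b < d := by
    intro a b
    obtain ⟨d, hd⟩ := hbound (fun k => if k = 0 then a else b)
    exact ⟨d, by simpa using hd 0, by simpa using hd 1⟩
  choose nx hnx1 hnx2 using hnext
  obtain ⟨w0⟩ := hne
  let aa : ℕ → W := fun k => Nat.rec w0 (fun k a => nx a (cc k a)) k
  have has : ∀ k, aa (k + 1) = nx (aa k) (cc k (aa k)) := fun k => rfl
  have hasmono : StrictMono aa := by
    apply strictMono_nat_of_lt_succ
    intro k
    rw [has]
    exact hnx1 _ _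
  have hascc : ∀ k, cc k (aa k) < aa (k + 1) := by
    intro k
    rw [has]
    exact hnx2 _ _
  -- the supremum
  have hwf : WellFounded ((· < ·) : W → W → Prop) := wellFounded_lt
  obtain ⟨astar, hastar, hmin⟩ : ∃ b, (∀ k, aa k < b) ∧ ∀ c < b, ∃ k, c < aa k := by
    set S : Set W := {b | ∀ k, aa k < b} with hS
    have hSne : S.Nonempty := hbound aa
    refine ⟨hwf.min S hSne, hwf.min_mem S hSne, fun c hcb => ?_⟩
    have h1 : c ∉ S := fun h => hwf.not_lt_min S h hcb
    simp only [hS, mem_setOf_eq, not_forall, not_lt] at h1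
    obtain ⟨k, hk⟩ := h1
    exact ⟨k + 1, lt_of_le_of_lt hk (hasmono (Nat.lt_succ_self k))⟩
  -- the good indices
  have hIk : ∀ k, {n | T astar ∩ Ico (ms k (aa k) n) (ms k (aa k) (n + 1)) = ∅}.Infinite := by
    intro k
    have hlt : cc k (aa k) < astar := (hascc k).trans (hastar (k + 1))
    obtain ⟨j, hj⟩ := (hdec astar _ hlt).bddAbove
    have h1 : {n | T (cc k (aa k)) ∩ Ico (ms k (aa k) n) (ms k (aa k) (n + 1)) = ∅} ∩ Ioi j ⊆
        {n | T astar ∩ Ico (ms k (aa k) n) (ms k (aa k) (n + 1)) = ∅} := by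
      rintro n ⟨hn, hnj⟩
      simp only [mem_setOf_eq] at hn ⊢
      rw [eq_empty_iff_forall_notMem] at hn ⊢
      rintro x ⟨hx1, hx2⟩
      refine hn x ⟨?_, hx2⟩
      by_contra hx3
      have h2 := hj ⟨hx1, hx3⟩
      have h3 : n ≤ ms k (aa k) n := (hmono k (aa k)).le_apply
      have h4 : ms k (aa k) n ≤ x := hx2.1
      have h5 : j < n := hnj
      omega
    refine Infinite.mono h1 ?_
    intro hfin'
    apply hcc k (aa k)
    refine (hfin'.union (finite_Iic j)).subset ?_
    intro n hn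
    by_cases hnj : j < n
    · exact Or.inl ⟨hn, hnj⟩
    · exact Or.inr (not_lt.1 hnj)
  -- the choice of `n k`
  have hnk : ∀ k, ∃ n, T astar ∩ Ico (ms k (aa k) n) (ms k (aa k) (n + 1)) = ∅ ∧ k ≤ n ∧
      ∀ i ≤ k, ∀ c < aa k, (y astar i).1 = chi (T c) → ∃ j ≤ n, y (aa k) j = y astar i := by
    intro k
    have h1 : ∀ i : ℕ, ∃ j : ℕ, ∀ c < aa k, (y astar i).1 = chi (T c) → y (aa k) j = y astar i := by
      intro i
      rcases Classical.em (∃ c : W, c < aa k ∧ (y astar i).1 = chi (T c)) with h | h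
      · obtain ⟨c, hc1, hc2⟩ := h
        obtain ⟨j, hj⟩ := hy (aa k) c hc1
        exact ⟨j, fun c' _ _ => Subtype.ext (by rw [hj, hc2])⟩
      · push Not at h
        exact ⟨0, fun c hc1 hc2 => absurd hc2 (h c hc1)⟩
    choose jj hjj using h1
    obtain ⟨n, hn, hgt⟩ := (hIk k).exists_gt (k + (Finset.range (k + 1)).sup jj)
    refine ⟨n, hn, by omega, fun i hi c hc1 hc2 => ⟨jj i, ?_, hjj i c hc1 hc2⟩⟩
    have h2 : jj i ≤ (Finset.range (k + 1)).sup jj :=
      Finset.le_sup (f := jj) (Finset.mem_range.2 (by omega))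
    omega
  choose nk hnk1 hnk2 hnk3 using hnk
  -- the selection
  let V : ℕ → Set Z := fun k => uu k (Fa (aa k) (nk k)) (ms k (aa k) (nk k))
  have hVvan : ∀ k (z : Z), (∀ n ∈ Ico (ms k (aa k) (nk k)) (ms k (aa k) (nk k + 1)),
      z.1 n = false) → z ∈ V k := by
    intro k z hz
    apply hvan
    intro n hn
    apply hz
    rw [hms]
    exact hn
  refine ⟨V, fun k => huU _ _ _, GammaTower_gamma V ⟨⟨chi ∅, hfin ∅ finite_empty⟩⟩
    (fun k => (hU k).1 _ (huU _ _ _)) (fun k h => (hU k).2.2.1 (by rw [← h]; exact huU _ _ _)) ?_⟩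
  -- every point is eventually covered
  have hvanish : ∀ (t : Set ℕ) (hz : chi t ∈ Z) (j : ℕ), (∀ x ∈ t, j ≤ x → x ∈ T astar) →
      ∀ k ≥ j, (⟨chi t, hz⟩ : Z) ∈ V k := by
    intro t hz j hj k hk
    apply hVvan
    intro n hn
    rw [GammaTower_chi_false]
    intro hnt
    have h1 : k ≤ nk k := hnk2 k
    have h2 : nk k ≤ ms k (aa k) (nk k) := (hmono k (aa k)).le_apply
    have h3 : n ∈ T astar := hj n hnt (by have := hn.1; omega)
    have h4 := hnk1 k
    rw [eq_empty_iff_forall_notMem] at h4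
    exact h4 n ⟨h3, hn⟩
  rintro ⟨z, t, ht, rfl⟩
  rcases ht with ht | ⟨c, rfl⟩
  · -- finite sets
    obtain ⟨j, hj⟩ := ht.bddAbove
    refine ⟨j + 1, hvanish t _ (j + 1) fun x hx hjx => ?_⟩
    have := hj hx
    omega
  · rcases lt_or_ge c astar with hca | hca
    · obtain ⟨i, hi⟩ := hy astar c hca
      obtain ⟨k0, hk0⟩ := hmin c hca
      refine ⟨max i k0, fun k hk => ?_⟩
      have hck : c < aa k := lt_of_lt_of_le hk0 (hasmono.monotone ((le_max_right _ _).trans hk))
      obtain ⟨j, hj1, hj2⟩ := hnk3 k i ((le_max_left _ _).trans hk) c hck hi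
      have h1 : y (aa k) j ∈ (Fa (aa k) (nk k) : Set Z) :=
        Finset.mem_coe.2 (Finset.mem_image.2 ⟨j, Finset.mem_range.2 (Nat.lt_succ_of_le hj1), rfl⟩)
      have h2 := hFu k (Fa (aa k) (nk k)) (ms k (aa k) (nk k)) h1
      rw [hj2] at h2
      have h3 : (⟨chi (T c), ⟨T c, Or.inr ⟨c, rfl⟩, rfl⟩⟩ : Z) = y astar i := Subtype.ext hi.symm
      rw [h3]
      exact h2
    · rcases hca.eq_or_lt with h | h
      · refine ⟨0, hvanish (T c) _ 0 fun x hx _ => ?_⟩
        rw [h]
        exact hx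
      · obtain ⟨j, hj⟩ := (hdec c astar h).bddAbove
        refine ⟨j + 1, hvanish (T c) _ (j + 1) fun x hx hjx => ?_⟩
        by_contra hx2
        have := hj ⟨hx, hx2⟩
        omega

end Pool.Agent.Lib.MP_4d8715_gt.KR
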