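import Pool.Agent.Lib.MP_4d8715_gt.KR.A.Defs

/-! # Coverings and Hausdorff dimension (module A-HAUS)

* `exists_cover`: from `dimH Y = 0` one gets `μH[s] Y = 0` (`hausdorffMeasure_of_dimH_lt`), hence by
  `MeasureTheory.Measure.hausdorffMeasure_apply` covers with `∑ diam^s < 2^-j` for every `j` and diameters
  at most `1/2`; enumerate all of them (`ℕ × ℕ ≃ ℕ`), replace a set of diameter `d` containing a point
  `c` by the ball of radius `max d ε` with `ε` tiny so that the sum stays finite.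
* `dimH_le_of_limsup`: for every `m`, `Z` is covered by the tail; `μH[s] Z ≤ liminf ...`
  (`MeasureTheory.Measure.hausdorffMeasure_le_liminf_tsum`), so `μH[s] Z = 0` and `dimH Z ≤ s`. -/

namespace Pool.Agent.Lib.MP_4d8715_gt.KR

open Set Filter MeasureTheory MeasureTheory.Measure

open scoped ENNReal

/-- one cover with a small sum -/
theorem haus_cover_step (Y : Set ℝ) (hY : dimH Y = 0) (s : ℝ) (hs : 0 < s) (δ : ℝ≥0∞) (hδ : 0 < δ) :
    ∃ c r : ℕ → ℝ, (∀ n, 0 < r n) ∧ (∀ n, r n ≤ 1 / 2) ∧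
      ∑' n, ENNReal.ofReal (r n ^ s) ≤ δ ∧ ∀ y ∈ Y, ∃ n, |y - c n| ≤ r n := by
  classical
  have hδ2 : (0 : ℝ≥0∞) < δ / 2 := by
    rw [ENNReal.div_pos_iff]
    exact ⟨hδ.ne', by norm_num⟩
  have hmeas : μH[s] Y = 0 := by
    have h := hausdorffMeasure_of_dimH_lt (s := Y) (d := ⟨s, hs.le⟩) (by
      rw [hY]
      exact ENNReal.coe_pos.2 (show (0 : NNReal) < ⟨s, hs.le⟩ from hs))
    exact h
  rw [hausdorffMeasure_apply] at hmeas
  have h1 : (⨅ (t : ℕ → Set ℝ) (_ : Y ⊆ ⋃ n, t n) (_ : ∀ n, Metric.ediam (t n) ≤ ENNReal.ofReal (1 / 2)),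
      ∑' n, ⨆ _ : (t n).Nonempty, Metric.ediam (t n) ^ s) < δ / 2 := by
    refine lt_of_le_of_lt ?_ hδ2
    rw [← hmeas]
    exact le_iSup₂_of_le (ENNReal.ofReal (1 / 2)) (by simp) le_rfl
  simp only [iInf_lt_iff] at h1
  obtain ⟨t, htY, htd, hts⟩ := h1
  obtain ⟨e, he, hes⟩ := ENNReal.exists_pos_sum_of_countable' hδ2.ne' ℕ
  -- the tiny radii
  have hefin : ∀ n, e n ≠ ∞ := fun n => ne_top_of_lt ((ENNReal.le_tsum n).trans_lt
    (lt_of_lt_of_le hes le_top))
  set ε : ℕ → ℝ := fun n => min (1 / 2) ((e n).toReal ^ (1 / s)) with hε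
  have hεpos : ∀ n, 0 < ε n := by
    intro n
    have h2 : 0 < (e n).toReal := ENNReal.toReal_pos (he n).ne' (hefin n)
    simp only [hε, lt_min_iff]
    exact ⟨by norm_num, Real.rpow_pos_of_pos h2 _⟩
  have hεs : ∀ n, ENNReal.ofReal (ε n ^ s) ≤ e n := by
    intro n
    have h2 : ε n ^ s ≤ (e n).toReal := by
      calc ε n ^ s ≤ ((e n).toReal ^ (1 / s)) ^ s :=
            Real.rpow_le_rpow (hεpos n).le (min_le_right _ _) hs.le
        _ = (e n).toReal := by
            rw [← Real.rpow_mul ENNReal.toReal_nonneg, one_div, inv_mul_cancel₀ hs.ne',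
              Real.rpow_one]
    exact (ENNReal.ofReal_le_ofReal h2).trans (by rw [ENNReal.ofReal_toReal (hefin n)])
  have hdfin : ∀ n, Metric.ediam (t n) ≠ ∞ := fun n =>
    ne_top_of_le_ne_top ENNReal.ofReal_ne_top (htd n)
  have hdhalf : ∀ n, (Metric.ediam (t n)).toReal ≤ 1 / 2 := by
    intro n
    have := ENNReal.toReal_mono ENNReal.ofReal_ne_top (htd n)
    rwa [ENNReal.toReal_ofReal (by norm_num)] at this
  set r : ℕ → ℝ := fun n => max (Metric.ediam (t n)).toReal (ε n) with hr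
  have hrpos : ∀ n, 0 < r n := fun n => lt_max_of_lt_right (hεpos n)
  have hr2 : ∀ n, r n ≤ 1 / 2 := fun n => max_le (hdhalf n) (min_le_left _ _)
  have hrs : ∀ n, ENNReal.ofReal (r n ^ s) ≤
      (⨆ _ : (t n).Nonempty, Metric.ediam (t n) ^ s) + e n := by
    intro n
    rcases le_total (Metric.ediam (t n)).toReal (ε n) with h2 | h2
    · simp only [hr, max_eq_right h2]
      exact (hεs n).trans le_add_self
    · have h3 : 0 < (Metric.ediam (t n)).toReal := (hεpos n).trans_le h2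
      have hne : (t n).Nonempty := by
        rw [nonempty_iff_ne_empty]
        intro h4
        rw [h4] at h3
        simp at h3
      simp only [hr, max_eq_left h2]
      refine le_trans ?_ le_self_add
      rw [iSup_pos hne, ← ENNReal.ofReal_rpow_of_nonneg ENNReal.toReal_nonneg hs.le,
        ENNReal.ofReal_toReal (hdfin n)]
  refine ⟨fun n => if h : (t n).Nonempty then h.some else 0, r, hrpos, hr2, ?_, ?_⟩
  · calc ∑' n, ENNReal.ofReal (r n ^ s) ≤
          ∑' n, ((⨆ _ : (t n).Nonempty, Metric.ediam (t n) ^ s) + e n) := ENNReal.tsum_le_tsum hrs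
      _ = (∑' n, ⨆ _ : (t n).Nonempty, Metric.ediam (t n) ^ s) + ∑' n, e n := ENNReal.tsum_add
      _ ≤ δ / 2 + δ / 2 := add_le_add hts.le hes.le
      _ = δ := ENNReal.add_halves δ
  · intro y hy
    obtain ⟨n, hn⟩ := mem_iUnion.1 (htY hy)
    refine ⟨n, ?_⟩
    have hne : (t n).Nonempty := ⟨y, hn⟩
    simp only [dif_pos hne]
    have h2 : edist y hne.some ≤ Metric.ediam (t n) := Metric.edist_le_ediam_of_mem hn hne.some_mem
    have h3 : dist y hne.some ≤ (Metric.ediam (t n)).toReal := by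
      rw [edist_dist] at h2
      exact (ENNReal.ofReal_le_iff_le_toReal (hdfin n)).1 h2
    rw [Real.dist_eq] at h3
    exact h3.trans (le_max_left _ _)

theorem exists_cover (Y : Set ℝ) (hY : dimH Y = 0) (s : ℝ) (hs : 0 < s) :
    ∃ c r : ℕ → ℝ, (∀ n, 0 < r n) ∧ (∀ n, r n ≤ 1 / 2) ∧ Summable (fun n => r n ^ s) ∧
      ∀ y ∈ Y, ∃ᶠ n in atTop, |y - c n| ≤ r n := by
  obtain ⟨d, hd, hds⟩ := ENNReal.exists_pos_sum_of_countable' (ε := 1) one_ne_zero ℕ
  choose c r h1 h2 h3 h4 using fun j : ℕ => haus_cover_step Y hY s hs (d j) (hd j)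
  refine ⟨fun n => c (Nat.unpair n).1 (Nat.unpair n).2, fun n => r (Nat.unpair n).1 (Nat.unpair n).2,
    fun n => h1 _ _, fun n => h2 _ _, ?_, ?_⟩
  · have hfin : ∑' n : ℕ, ENNReal.ofReal (r (Nat.unpair n).1 (Nat.unpair n).2 ^ s) ≠ ∞ := by
      have e1 : ∑' n : ℕ, ENNReal.ofReal (r (Nat.unpair n).1 (Nat.unpair n).2 ^ s) =
          ∑' p : ℕ × ℕ, ENNReal.ofReal (r p.1 p.2 ^ s) :=
        Nat.pairEquiv.symm.tsum_eq (fun p : ℕ × ℕ => ENNReal.ofReal (r p.1 p.2 ^ s))
      rw [e1, ENNReal.tsum_prod' (f := fun p : ℕ × ℕ => ENNReal.ofReal (r p.1 p.2 ^ s))]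
      refine ne_top_of_lt (b := 1) ?_
      exact (ENNReal.tsum_le_tsum h3).trans_lt hds
    have h5 := ENNReal.summable_toReal hfin
    refine h5.congr fun n => ?_
    rw [ENNReal.toReal_ofReal (Real.rpow_nonneg (h1 _ _).le _)]
  · intro y hy
    choose k hk using fun j => h4 j y hy
    rw [Filter.frequently_atTop]
    intro N
    have hinj : Function.Injective fun j => Nat.pair j (k j) := by
      intro a b hab
      have := congrArg (fun n => (Nat.unpair n).1) hab
      simpa using this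
    obtain ⟨j, hj⟩ : ∃ j, N ≤ Nat.pair j (k j) := ⟨N, Nat.left_le_pair N (k N)⟩
    refine ⟨Nat.pair j (k j), hj, ?_⟩
    simp only [Nat.unpair_pair]
    exact hk j

theorem dimH_le_of_limsup (Z : Set (EuclideanSpace ℝ (Fin 2))) (s : NNReal) (hs : 0 < s)
    (a b r : ℕ → ℝ) (hr : ∀ n, 0 < r n) (hsum : Summable (fun n => r n ^ (s : ℝ)))
    (hZ : ∀ z ∈ Z, ∃ᶠ n in atTop, |z 0 - a n| ≤ r n ∧ |z 1 - b n| ≤ r n) : dimH Z ≤ s := by
  have hs0 : (0 : ℝ) < s := hs
  -- the boxes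
  set B : ℕ → Set (EuclideanSpace ℝ (Fin 2)) := fun n => {z | |z 0 - a n| ≤ r n ∧ |z 1 - b n| ≤ r n}
    with hB
  have hdiam : ∀ n, Metric.ediam (B n) ≤ ENNReal.ofReal (4 * r n) := by
    intro n
    refine Metric.ediam_le fun x hx y hy => ?_
    rw [edist_dist]
    refine ENNReal.ofReal_le_ofReal ?_
    rw [EuclideanSpace.dist_eq, Fin.sum_univ_two]
    obtain ⟨hx0, hx1⟩ := hx
    obtain ⟨hy0, hy1⟩ := hy
    have hrn := hr n
    rw [abs_le] at hx0 hx1 hy0 hy1
    have e0 : dist (x 0) (y 0) ≤ 2 * r n := by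
      rw [Real.dist_eq, abs_le]
      constructor <;> linarith [hx0.1, hx0.2, hy0.1, hy0.2]
    have e1 : dist (x 1) (y 1) ≤ 2 * r n := by
      rw [Real.dist_eq, abs_le]
      constructor <;> linarith [hx1.1, hx1.2, hy1.1, hy1.2]
    refine Real.sqrt_le_iff.2 ⟨by positivity, ?_⟩
    have f0 : dist (x 0) (y 0) ^ 2 ≤ (2 * r n) ^ 2 := pow_le_pow_left₀ dist_nonneg e0 2
    have f1 : dist (x 1) (y 1) ^ 2 ≤ (2 * r n) ^ 2 := pow_le_pow_left₀ dist_nonneg e1 2
    nlinarith
  -- the radii tend to zero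
  have hr0 : Tendsto r atTop (nhds 0) := by
    have h1 := hsum.tendsto_atTop_zero
    have h2 : Tendsto (fun n => (r n ^ (s : ℝ)) ^ (1 / (s : ℝ))) atTop (nhds (0 ^ (1 / (s : ℝ)))) :=
      h1.rpow_const (Or.inr (by positivity))
    rw [Real.zero_rpow (by positivity)] at h2
    refine h2.congr fun n => ?_
    rw [← Real.rpow_mul (hr n).le, mul_one_div, div_self hs0.ne', Real.rpow_one]
  have hR0 : Tendsto (fun m : ℕ => ⨆ i : ℕ, ENNReal.ofReal (4 * r (m + i))) atTop (nhds 0) := by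
    rw [ENNReal.tendsto_nhds_zero]
    intro ε hε
    have h1 : Tendsto (fun n => ENNReal.ofReal (4 * r n)) atTop (nhds 0) := by
      have h2 := ENNReal.tendsto_ofReal (hr0.const_mul 4)
      simpa using h2
    rw [ENNReal.tendsto_nhds_zero] at h1
    obtain ⟨N, hN⟩ := eventually_atTop.1 (h1 ε hε)
    filter_upwards [eventually_ge_atTop N] with m hm
    exact iSup_le fun i => hN (m + i) (by omega)
  have hsumE : ∑' n, ENNReal.ofReal ((4 * r n) ^ (s : ℝ)) ≠ ∞ := by
    have h1 : Summable fun n => (4 * r n) ^ (s : ℝ) := by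
      have h2 := hsum.mul_left (4 ^ (s : ℝ))
      refine h2.congr fun n => ?_
      rw [Real.mul_rpow (by norm_num) (hr n).le]
    exact h1.tsum_ofReal_ne_top
  have hmeas : μH[(s : ℝ)] Z ≤ ∑' n, ENNReal.ofReal ((4 * r n) ^ (s : ℝ)) := by
    refine (hausdorffMeasure_le_liminf_tsum (ι := fun _ : ℕ => ℕ) (s : ℝ) Z (l := atTop)
      (fun m : ℕ => ⨆ i : ℕ, ENNReal.ofReal (4 * r (m + i))) hR0 (fun m i => B (m + i))
      (Eventually.of_forall fun m i => ?_) (Eventually.of_forall fun m z hz => ?_)).trans ?_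
    · exact (hdiam (m + i)).trans (le_iSup (fun i : ℕ => ENNReal.ofReal (4 * r (m + i))) i)
    · obtain ⟨n, hn, hn'⟩ := (Filter.frequently_atTop.1 (hZ z hz)) m
      refine mem_iUnion.2 ⟨n - m, ?_⟩
      rw [Nat.add_sub_cancel' hn]
      exact hn'
    · have h1 : ∀ m : ℕ, ∑' i, Metric.ediam (B (m + i)) ^ (s : ℝ) ≤
          ∑' n, ENNReal.ofReal ((4 * r n) ^ (s : ℝ)) := by
        intro m
        calc ∑' i, Metric.ediam (B (m + i)) ^ (s : ℝ) ≤
              ∑' i, ENNReal.ofReal ((4 * r (m + i)) ^ (s : ℝ)) := by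
              refine ENNReal.tsum_le_tsum fun i => ?_
              rw [← ENNReal.ofReal_rpow_of_nonneg (by have := hr (m + i); positivity) hs0.le]
              exact ENNReal.rpow_le_rpow (hdiam (m + i)) hs0.le
          _ ≤ ∑' n, ENNReal.ofReal ((4 * r n) ^ (s : ℝ)) :=
              ENNReal.tsum_comp_le_tsum_of_injective (add_right_injective m) _
      calc liminf (fun m => ∑' i, Metric.ediam (B (m + i)) ^ (s : ℝ)) atTop ≤
            liminf (fun _ : ℕ => ∑' n, ENNReal.ofReal ((4 * r n) ^ (s : ℝ))) atTop :=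
            liminf_le_liminf (Eventually.of_forall h1)
        _ = _ := liminf_const _
  exact dimH_le_of_hausdorffMeasure_ne_top (ne_top_of_le_ne_top hsumE hmeas)

end Pool.Agent.Lib.MP_4d8715_gt.KR
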