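import Pool.Agent.Lib.MP_4d8715_gt.KR.A.Bits
import Pool.Agent.Lib.MP_4d8715_gt.KR.A.Haus

/-! # Products with captured sets (module A-PROD)

Proof (section 2.2 of `KR_paper.md`). Write `prodSet X Y` as the countable union over `z : ℤ` of the parts
with `⌊p 0⌋ = z` (`dimH_iUnion`). Fix `z` and `s > 0`. Take `c, r` from `exists_cover` with exponent `s/2`;
`L n = ⌈log (1 / r n) / log 2⌉`, so that `2^(-L n) ≤ r n`. Index the rectangles by `n` and `i < L n`:
centre `(z + the number with digits S (L n) i below L n, c n)`, radius `r n`. -/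

namespace Pool.Agent.Lib.MP_4d8715_gt.KR

open Set Filter Topology

open Classical in
/-- the integer with binary digits `P` below `L` -/
noncomputable def prodNum (P : Set ℕ) : ℕ → ℤ
  | 0 => 0
  | (L + 1) => 2 * prodNum P L + (if L ∈ P then 1 else 0)

theorem prodNum_congr (P Q : Set ℕ) (L : ℕ) (h : ∀ j < L, (j ∈ P ↔ j ∈ Q)) :
    prodNum P L = prodNum Q L := by
  induction L with
  | zero => rfl
  | succ L ih =>
    have h1 := ih fun j hj => h j (by omega)
    have h2 := h L (by omega)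
    by_cases hP : L ∈ P
    · simp only [prodNum, h1, if_pos hP, if_pos (h2.mp hP)]
    · simp only [prodNum, h1, if_neg hP, if_neg (fun hc => hP (h2.mpr hc))]

theorem prodNum_bits (x : ℝ) (L : ℕ) :
    ⌊(2 : ℝ) ^ L * x⌋ = 2 ^ L * ⌊x⌋ + prodNum (bits x) L := by
  induction L with
  | zero => simp [prodNum]
  | succ L ih =>
    have h1 : 2 * ⌊(2 : ℝ) ^ L * x⌋ ≤ ⌊(2 : ℝ) ^ (L + 1) * x⌋ := by
      rw [Int.le_floor]
      have := Int.floor_le ((2 : ℝ) ^ L * x)
      push_cast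
      rw [pow_succ]
      linarith
    have h2 : ⌊(2 : ℝ) ^ (L + 1) * x⌋ < 2 * ⌊(2 : ℝ) ^ L * x⌋ + 2 := by
      rw [Int.floor_lt]
      have := Int.lt_floor_add_one ((2 : ℝ) ^ L * x)
      push_cast
      rw [pow_succ]
      linarith
    by_cases hL : L ∈ bits x
    · have hodd : Odd ⌊(2 : ℝ) ^ (L + 1) * x⌋ := hL
      obtain ⟨k, hk⟩ := hodd
      have e : ⌊(2 : ℝ) ^ (L + 1) * x⌋ = 2 * ⌊(2 : ℝ) ^ L * x⌋ + 1 := by omega
      rw [e, ih, prodNum, if_pos hL]
      ring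
    · have heven : ¬ Odd ⌊(2 : ℝ) ^ (L + 1) * x⌋ := hL
      rw [Int.not_odd_iff_even] at heven
      obtain ⟨k, hk⟩ := heven
      have e : ⌊(2 : ℝ) ^ (L + 1) * x⌋ = 2 * ⌊(2 : ℝ) ^ L * x⌋ := by omega
      rw [e, ih, prodNum, if_neg hL]
      ring

theorem prod_close (x : ℝ) (P : Set ℕ) (L : ℕ) (h : ∀ j < L, (j ∈ bits x ↔ j ∈ P)) :
    |x - (⌊x⌋ + prodNum P L / 2 ^ L)| ≤ 1 / 2 ^ L := by
  have h1 := prodNum_bits x L
  rw [prodNum_congr _ P L h] at h1
  have h2 := Int.floor_le ((2 : ℝ) ^ L * x)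
  have h3 := Int.lt_floor_add_one ((2 : ℝ) ^ L * x)
  rw [h1] at h2 h3
  push_cast at h2 h3
  have hp : (0 : ℝ) < 2 ^ L := by positivity
  have e : x - (⌊x⌋ + prodNum P L / 2 ^ L) =
      (2 ^ L * x - (2 ^ L * ⌊x⌋ + prodNum P L)) / 2 ^ L := by field_simp
  rw [e, abs_div, abs_of_pos hp]
  gcongr
  rw [abs_le]
  constructor <;> linarith

theorem dimH_prod_of_capt (X Y : Set ℝ) (hX : Capt (bits '' X)) (hY : dimH Y = 0) :
    dimH (prodSet X Y) = 0 := by
  obtain ⟨S, hS⟩ := hX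
  have hun : prodSet X Y = ⋃ z : ℤ, {p | p ∈ prodSet X Y ∧ ⌊p 0⌋ = z} := by
    ext p
    simp
  rw [hun, dimH_iUnion]
  rw [← le_zero_iff]
  refine iSup_le fun z => ?_
  refine ENNReal.le_of_forall_pos_le_add ?_
  intro s hs _
  rw [zero_add]
  have hs' : (0 : ℝ) < s := hs
  obtain ⟨c, r, hr0, hr1, hsum, hc⟩ := exists_cover Y hY ((s : ℝ) / 2) (by positivity)
  have hlog2 : 0 < Real.log 2 := Real.log_pos (by norm_num)
  have hlr : ∀ n, Real.log 2 ≤ Real.log (1 / r n) := fun n => by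
    apply Real.log_le_log (by norm_num)
    rw [le_div_iff₀ (hr0 n)]
    have := hr1 n
    linarith
  set L : ℕ → ℕ := fun n => ⌈Real.log (1 / r n) / Real.log 2⌉₊ with hL
  have hL1 : ∀ n, Real.log (1 / r n) / Real.log 2 ≤ L n := fun n => Nat.le_ceil _
  have hL2 : ∀ n, (L n : ℝ) < Real.log (1 / r n) / Real.log 2 + 1 := fun n =>
    Nat.ceil_lt_add_one (div_nonneg (hlog2.le.trans (hlr n)) hlog2.le)
  have hLpos : ∀ n, 0 < L n := fun n => by
    rw [hL, Nat.ceil_pos]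
    exact div_pos (hlog2.trans_le (hlr n)) hlog2
  have hLr : ∀ n, 1 / (2 : ℝ) ^ (L n) ≤ r n := fun n => by
    have h1 := hL1 n
    rw [div_le_iff₀ hlog2] at h1
    have h2 : Real.log (1 / r n) ≤ Real.log ((2 : ℝ) ^ (L n)) := by rw [Real.log_pow]; exact h1
    have h3 := (Real.log_le_log_iff (by have := hr0 n; positivity) (by positivity)).mp h2
    rw [div_le_iff₀ (hr0 n)] at h3
    rw [div_le_iff₀ (by positivity)]
    linarith
  -- the index type
  have : Infinite (Σ n, Fin (L n)) :=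
    Infinite.of_injective (fun n => (⟨n, ⟨0, hLpos n⟩⟩ : Σ n, Fin (L n))) fun a b hab => by
      simpa using congrArg Sigma.fst hab
  obtain ⟨den⟩ := nonempty_denumerable (Σ n, Fin (L n))
  let e : ℕ ≃ (Σ n, Fin (L n)) := (@Denumerable.eqv _ den).symm
  have hsum' : Summable (fun k : ℕ => (r (e k).1) ^ (s : ℝ)) := by
    have h1 : Summable (fun q : Σ n, Fin (L n) => (r q.1) ^ (s : ℝ)) := by
      rw [summable_sigma_of_nonneg (fun q => Real.rpow_nonneg (hr0 _).le _)]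
      refine ⟨fun n => (hasSum_fintype _).summable, ?_⟩
      have hC : ∀ n, ∑' _i : Fin (L n), (r n) ^ (s : ℝ) ≤
          (1 + 1 / ((s : ℝ) / 2 * Real.log 2)) * r n ^ ((s : ℝ) / 2) := by
        intro n
        rw [tsum_fintype, Finset.sum_const, Finset.card_univ, Fintype.card_fin, nsmul_eq_mul]
        have h2 : Real.log (1 / r n) ≤ (1 / r n) ^ ((s : ℝ) / 2) / ((s : ℝ) / 2) :=
          Real.log_le_rpow_div (by have := hr0 n; positivity) (by positivity)
        have h3 : (1 : ℝ) ≤ (1 / r n) ^ ((s : ℝ) / 2) := by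
          apply Real.one_le_rpow _ (by positivity)
          rw [le_div_iff₀ (hr0 n)]
          have := hr1 n
          linarith
        have h4 : (L n : ℝ) ≤ (1 + 1 / ((s : ℝ) / 2 * Real.log 2)) * (1 / r n) ^ ((s : ℝ) / 2) := by
          calc (L n : ℝ) ≤ Real.log (1 / r n) / Real.log 2 + 1 := (hL2 n).le
            _ ≤ (1 / r n) ^ ((s : ℝ) / 2) / ((s : ℝ) / 2) / Real.log 2 +
                (1 / r n) ^ ((s : ℝ) / 2) := by gcongr
            _ = _ := by field_simp; ring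
        have h5 : (1 / r n) ^ ((s : ℝ) / 2) * r n ^ (s : ℝ) = r n ^ ((s : ℝ) / 2) := by
          rw [one_div, Real.inv_rpow (hr0 n).le, ← Real.rpow_neg (hr0 n).le,
            ← Real.rpow_add (hr0 n)]
          congr 1
          ring
        calc (L n : ℝ) * r n ^ (s : ℝ) ≤ (1 + 1 / ((s : ℝ) / 2 * Real.log 2)) *
              (1 / r n) ^ ((s : ℝ) / 2) * r n ^ (s : ℝ) :=
              mul_le_mul_of_nonneg_right h4 (Real.rpow_nonneg (hr0 n).le _)
          _ = _ := by rw [mul_assoc, h5]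
      refine Summable.of_nonneg_of_le (fun n => ?_) hC (hsum.mul_left _)
      exact tsum_nonneg fun _ => Real.rpow_nonneg (hr0 n).le _
    exact (e.summable_iff (f := fun q : Σ n, Fin (L n) => (r q.1) ^ (s : ℝ))).mpr h1
  refine dimH_le_of_limsup _ s hs
    (fun k => z + prodNum (S (L (e k).1) (e k).2) (L (e k).1) / 2 ^ (L (e k).1))
    (fun k => c (e k).1) (fun k => r (e k).1) (fun k => hr0 _) hsum' ?_
  rintro p ⟨⟨hpX, hpY⟩, hpz⟩
  obtain ⟨m, hm⟩ := hS (bits (p 0)) ⟨p 0, hpX, rfl⟩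
  have hfr := hc (p 1) hpY
  have hev : ∀ᶠ n in atTop, m < L n := by
    have h1 : Tendsto (fun n => r n ^ ((s : ℝ) / 2)) atTop (𝓝 0) := hsum.tendsto_atTop_zero
    have hpm : (0 : ℝ) < (1 / 2 ^ m) ^ ((s : ℝ) / 2) := by positivity
    filter_upwards [h1.eventually_lt_const hpm] with n hn
    have h2 : r n < 1 / 2 ^ m :=
      (Real.rpow_lt_rpow_iff (hr0 n).le (by positivity) (by positivity)).mp hn
    have h3 : 1 / (2 : ℝ) ^ (L n) < 1 / 2 ^ m := lt_of_le_of_lt (hLr n) h2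
    rw [one_div_lt_one_div (by positivity) (by positivity)] at h3
    exact (pow_lt_pow_iff_right₀ (by norm_num : (1 : ℝ) < 2)).mp h3
  have hfr2 := hfr.and_eventually hev
  rw [Nat.frequently_atTop_iff_infinite] at hfr2 ⊢
  have himg : {n | |p 1 - c n| ≤ r n ∧ m < L n} ⊆ (fun k => (e k).1) ''
      {k | |p 0 - (z + prodNum (S (L (e k).1) (e k).2) (L (e k).1) / 2 ^ (L (e k).1))| ≤
        r (e k).1 ∧ |p 1 - c (e k).1| ≤ r (e k).1} := by
    rintro n ⟨hn1, hn2⟩
    obtain ⟨i, hi, hij⟩ := hm (L n) hn2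
    refine ⟨e.symm ⟨n, ⟨i, hi⟩⟩, ?_, by simp⟩
    have h1 := prod_close (p 0) (S (L n) i) (L n) hij
    rw [hpz] at h1
    have he : e (e.symm ⟨n, ⟨i, hi⟩⟩) = ⟨n, ⟨i, hi⟩⟩ := e.apply_symm_apply _
    show _ ∧ _
    rw [he]
    exact ⟨h1.trans (hLr n), hn1⟩
  exact (hfr2.mono himg).of_image _

end Pool.Agent.Lib.MP_4d8715_gt.KR
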