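import Pool.Agent.Lib.MP_4d8715_gt.KR.A.GammaThin
import Pool.Agent.Lib.MP_4d8715_gt.KR.A.Prod
import Pool.Agent.Lib.MP_4d8715_gt.KR.A.GammaTower
import Pool.Agent.Lib.MP_4d8715_gt.KR.A.Embed

/-! # Theorem A (module A-MAIN) -/

namespace Pool.Agent.Lib.MP_4d8715_gt.KR

open Set

theorem Main_chi_injective : Function.Injective chi := by
  intro s t h
  ext n
  have h1 := congrFun h n
  simp only [chi, decide_eq_decide] at h1
  exact h1

theorem Main_fiber {W : Type} (h : W → ℕ → ℕ)
    (hh : ∀ g : ℕ → ℕ, {a | ∃ m, ∀ n, m ≤ n → h a n ≤ g n}.Countable)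
    (T : W → Set ℕ) (hT : ∀ a n, (T a ∩ Iio (h a n)).ncard ≤ n) (t : Set ℕ) (ht : t.Infinite) :
    {a | T a = t}.Countable := by
  classical
  have hF : ∀ n : ℕ, ∃ F : Finset ℕ, (F : Set ℕ) ⊆ t ∧ F.card = n + 1 := fun n =>
    ht.exists_subset_card_eq (n + 1)
  choose F hF1 hF2 using hF
  refine (hh (fun n => (F n).sup id)).mono ?_
  rintro a rfl
  refine ⟨0, fun n _ => ?_⟩
  by_contra hcon
  rw [not_le] at hcon
  have h1 : ((F n : Finset ℕ) : Set ℕ) ⊆ T a ∩ Iio (h a n) := by
    intro i hi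
    exact ⟨hF1 n hi, lt_of_le_of_lt (Finset.le_sup (f := id) hi) hcon⟩
  have h2 := Set.ncard_le_ncard h1 ((Set.finite_Iio _).subset inter_subset_right)
  rw [Set.ncard_coe_finset, hF2] at h2
  have h3 := hT a n
  omega

theorem statementI (hKL : KL) : StatementI := by
  classical
  obtain ⟨W, hlin, hwf, hc, hu, hcard⟩ := exists_omega1
  obtain ⟨h, hmono, hh⟩ := exists_family hKL W hcard
  obtain ⟨T, hinf, hdec, hT⟩ := exists_tower W hc h
  have hgap := tower_gap W hu h hmono hh T hinf hT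
  have hZ := gamma_tower W hc hu T hinf hdec hgap
  refine gamma_real _ hZ ?_
  intro hcount
  have h1 : {t : Set ℕ | t.Finite ∨ ∃ a, t = T a}.Countable :=
    countable_of_injective_of_countable_image Main_chi_injective.injOn hcount
  have h2 : (range T).Countable := h1.mono (by
    rintro _ ⟨a, rfl⟩
    exact Or.inr ⟨a, rfl⟩)
  apply hu
  have h3 : (univ : Set W) = ⋃ t ∈ range T, {a | T a = t} := by
    symm
    apply eq_univ_of_forall
    intro a
    exact mem_biUnion (mem_range_self a) rfl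
  rw [h3]
  apply h2.biUnion
  rintro _ ⟨a, rfl⟩
  exact Main_fiber h hh T hT (T a) (hinf a)

theorem statementII (hTC : TC) : StatementII := by
  intro X Y hX hY
  exact dimH_prod_of_capt X Y (hTC _ (thin_of_gamma X hX)) hY

theorem theoremA (hKL : KL) (hTC : TC) : StatementI ∧ StatementII :=
  ⟨statementI hKL, statementII hTC⟩

end Pool.Agent.Lib.MP_4d8715_gt.KR
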