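import Pool.Agent.Lib.MP_4d8715_gt.KR.A.Defs

/-! # The family of fast functions from (KL) (module A-OM1)

* `exists_omega1`: e.g. `Ordinal.ToType (ω₁)` (or `(Cardinal.aleph 1).ord.ToType`).
* `exists_family`: the set `X' = {x ∈ X : x infinite}` is uncountable (there are countably many finite
  subsets of `ℕ`), so there is an injection `x : W → X'` (`W` has cardinality `ℵ₁`); put
  `h a n = max_{k ≤ n} min (x a \ (k+1))`. If `h a ≤* g` then `x a` meets `(k, max (g k) (k+1)]` for
  almost all `k`. -/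

namespace Pool.Agent.Lib.MP_4d8715_gt.KR

open Set

theorem exists_omega1 : ∃ (W : Type) (_ : LinearOrder W) (_ : WellFoundedLT W),
    (∀ a : W, (Iio a).Countable) ∧ ¬ (univ : Set W).Countable ∧
      Cardinal.mk W = Cardinal.aleph 1 := by
  have hcard : Cardinal.mk (Cardinal.aleph 1).ord.ToType = Cardinal.aleph 1 := by
    rw [Cardinal.mk_toType, Cardinal.card_ord]
  refine ⟨(Cardinal.aleph 1).ord.ToType, inferInstance, inferInstance, ?_, ?_, hcard⟩
  · intro a
    have h : Cardinal.mk (Iio a) < Cardinal.mk (Cardinal.aleph 1).ord.ToType := by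
      apply Cardinal.mk_Iio_lt a
      simp
    rw [hcard, Cardinal.lt_aleph_one_iff] at h
    exact Cardinal.le_aleph0_iff_set_countable.mp h
  · intro h
    rw [← Cardinal.le_aleph0_iff_set_countable, Cardinal.mk_univ, hcard] at h
    exact absurd Cardinal.aleph0_lt_aleph_one (not_lt.mpr h)

theorem exists_family (hKL : KL) (W : Type) (hW : Cardinal.mk W = Cardinal.aleph 1) :
    ∃ h : W → ℕ → ℕ, (∀ a, Monotone (h a)) ∧
      ∀ g : ℕ → ℕ, {a | ∃ m, ∀ n, m ≤ n → h a n ≤ g n}.Countable := by
  classical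
  obtain ⟨X, hX, hg⟩ := hKL
  set X' : Set (Set ℕ) := {x ∈ X | x.Infinite} with hX'
  have hX'u : ¬ X'.Countable := by
    intro h
    apply hX
    have h1 : {t : Set ℕ | t.Finite ∧ t ⊆ univ}.Countable :=
      Set.countable_setOf_finite_subset countable_univ
    apply (h.union h1).mono
    intro x hx
    by_cases hf : x.Finite
    · exact Or.inr ⟨hf, subset_univ _⟩
    · exact Or.inl ⟨hx, hf⟩
  have hle : Cardinal.mk W ≤ Cardinal.mk X' := by
    rw [hW, Cardinal.aleph_one_le_iff]
    by_contra h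
    rw [not_lt] at h
    exact hX'u (Cardinal.le_aleph0_iff_set_countable.mp h)
  obtain ⟨x⟩ := Cardinal.le_def _ _ |>.mp hle
  have hne : ∀ (a : W) (k : ℕ), ∃ j, j ∈ (x a : Set ℕ) ∧ k < j := fun a k =>
    (x a).2.2.exists_gt k
  set f : W → ℕ → ℕ := fun a k => (hne a k).choose with hf
  have hf1 : ∀ a k, f a k ∈ (x a : Set ℕ) ∧ k < f a k := fun a k => (hne a k).choose_spec
  refine ⟨fun a n => (Finset.range (n + 1)).sup (f a), ?_, ?_⟩
  · intro a n m hnm
    apply Finset.sup_mono
    intro i hi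
    rw [Finset.mem_range] at hi ⊢
    omega
  · intro g
    have hc := hg g
    have hinj : Function.Injective (fun a : W => (x a : Set ℕ)) := fun a b hab =>
      x.injective (Subtype.ext hab)
    apply (hc.preimage hinj).mono
    rintro a ⟨m, hm⟩
    refine ⟨(x a).2.1, m, fun k hk => ⟨f a k, (hf1 a k).1, (hf1 a k).2, ?_⟩⟩
    refine le_trans ?_ (hm k hk.le)
    exact Finset.le_sup (f := f a) (Finset.mem_range.mpr (Nat.lt_succ_self k))

end Pool.Agent.Lib.MP_4d8715_gt.KR
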