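import Pool.Agent.Lib.MP_4d8715_gt.KR.A.Omega1

/-! # The unbounded tower (module A-TOWER)

* `pseudo`: one recursion step: for countably many infinite sets `T c` (`c ∈ C`), such that any finitely
  many of them have infinite intersection, and `h : ℕ → ℕ` there is an infinite `t`, almost contained in
  every `T c`, which has at most `n` elements below `h n` for every `n`.
* `exists_tower`: well-founded recursion on `W` with `pseudo` (at stage `a` the family `T c`, `c < a`, is
  countable and decreasing modulo finite sets).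
* `tower_gap` (this is `(*)` of section 2.3): if `T a` meets `[m n, m (n+1))` for all `n ≥ n₀` then it has
  more than `n - n₀` elements below `m (n+1)`; so `h a (n - n₀) < m (n+1)`, whence `h a ≤* (n ↦ m (2 n + 1))`;
  this holds only for countably many `a`. -/

namespace Pool.Agent.Lib.MP_4d8715_gt.KR

open Set

theorem pseudo (C : Type) [Countable C] (T : C → Set ℕ)
    (hT : ∀ F : Finset C, (⋂ c ∈ F, T c).Infinite) (h : ℕ → ℕ) :
    ∃ t : Set ℕ, t.Infinite ∧ (∀ c, (t \ T c).Finite) ∧
      ∀ n, (t ∩ Iio (h n)).ncard ≤ n := by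
  classical
  haveI := Encodable.ofCountable C
  have key : ∀ n y : ℕ, ∃ x, y < x ∧ h n ≤ x ∧ ∀ c : C, Encodable.encode c < n → x ∈ T c := by
    intro n y
    have hfin : {c : C | Encodable.encode c < n}.Finite :=
      Set.Finite.of_finite_image (f := Encodable.encode)
        ((Set.finite_Iio n).subset (by rintro _ ⟨c, hc, rfl⟩; exact hc))
        Encodable.encode_injective.injOn
    obtain ⟨x, hx, hxy⟩ := (hT hfin.toFinset).exists_gt (max y (h n))
    refine ⟨x, lt_of_le_of_lt (le_max_left _ _) hxy, (lt_of_le_of_lt (le_max_right _ _) hxy).le, ?_⟩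
    intro c hc
    rw [mem_iInter₂] at hx
    exact hx c (by simpa using hc)
  choose f hf1 hf2 hf3 using key
  let x : ℕ → ℕ := fun n => Nat.rec (f 0 0) (fun n y => f (n + 1) y) n
  have hx0 : x 0 = f 0 0 := rfl
  have hxs : ∀ n, x (n + 1) = f (n + 1) (x n) := fun n => rfl
  have hmono : StrictMono x := strictMono_nat_of_lt_succ fun n => by rw [hxs]; exact hf1 _ _
  have hxh : ∀ n, h n ≤ x n := by
    intro n
    cases n with
    | zero => rw [hx0]; exact hf2 _ _
    | succ n => rw [hxs]; exact hf2 _ _
  have hxT : ∀ n (c : C), Encodable.encode c < n → x n ∈ T c := by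
    intro n c hc
    cases n with
    | zero => exact absurd hc (Nat.not_lt_zero _)
    | succ n => rw [hxs]; exact hf3 _ _ c hc
  refine ⟨range x, infinite_range_of_injective hmono.injective, ?_, ?_⟩
  · intro c
    refine ((finite_Iic (Encodable.encode c)).image x).subset ?_
    rintro _ ⟨⟨n, rfl⟩, hn⟩
    refine ⟨n, ?_, rfl⟩
    by_contra hcon
    exact hn (hxT n c (not_le.mp hcon))
  · intro n
    have hsub : range x ∩ Iio (h n) ⊆ x '' Iio n := by
      rintro _ ⟨⟨k, rfl⟩, hk⟩
      refine ⟨k, ?_, rfl⟩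
      by_contra hcon
      have h1 : x n ≤ x k := hmono.monotone (not_lt.mp hcon)
      have h2 : x k < h n := hk
      have h3 := hxh n
      omega
    calc (range x ∩ Iio (h n)).ncard ≤ (x '' Iio n).ncard :=
          ncard_le_ncard hsub ((finite_Iio n).image x)
      _ ≤ (Iio n).ncard := ncard_image_le (finite_Iio n)
      _ = n := by rw [← Finset.coe_Iio, ncard_coe_finset, Nat.card_Iio]

open Classical in
/-- the tower, by well-founded recursion -/
noncomputable def towerFun (W : Type) [LinearOrder W] [WellFoundedLT W]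
    (hc : ∀ a : W, (Iio a).Countable) (h : W → ℕ → ℕ) : W → Set ℕ :=
  WellFounded.fix (wellFounded_lt (α := W)) fun a ih =>
    if H : ∀ F : Finset (Iio a), (⋂ c ∈ F, ih c.1 c.2).Infinite then
      Classical.choose (@pseudo (Iio a) (hc a).to_subtype (fun c => ih c.1 c.2) H (h a))
    else univ

theorem towerFun_spec (W : Type) [LinearOrder W] [WellFoundedLT W]
    (hc : ∀ a : W, (Iio a).Countable) (h : W → ℕ → ℕ) (a : W)
    (H : ∀ F : Finset (Iio a), (⋂ c ∈ F, towerFun W hc h c.1).Infinite) :
    (towerFun W hc h a).Infinite ∧ (∀ c, c < a → (towerFun W hc h a \ towerFun W hc h c).Finite) ∧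
      ∀ n, (towerFun W hc h a ∩ Iio (h a n)).ncard ≤ n := by
  have e : towerFun W hc h a = Classical.choose
      (@pseudo (Iio a) (hc a).to_subtype (fun c => towerFun W hc h c.1) H (h a)) := by
    conv_lhs => rw [towerFun, WellFounded.fix_eq]
    rw [dif_pos]
    · rfl
    · exact H
  have sp := Classical.choose_spec
      (@pseudo (Iio a) (hc a).to_subtype (fun c => towerFun W hc h c.1) H (h a))
  rw [← e] at sp
  exact ⟨sp.1, fun c hca => sp.2.1 ⟨c, hca⟩, sp.2.2⟩

theorem exists_tower (W : Type) [LinearOrder W] [WellFoundedLT W]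
    (hc : ∀ a : W, (Iio a).Countable) (h : W → ℕ → ℕ) :
    ∃ T : W → Set ℕ, (∀ a, (T a).Infinite) ∧ (∀ a c, c < a → (T a \ T c).Finite) ∧
      ∀ a n, (T a ∩ Iio (h a n)).ncard ≤ n := by
  classical
  have key : ∀ a : W, (towerFun W hc h a).Infinite ∧
      (∀ c, c < a → (towerFun W hc h a \ towerFun W hc h c).Finite) ∧
      ∀ n, (towerFun W hc h a ∩ Iio (h a n)).ncard ≤ n := by
    intro a
    induction a using WellFoundedLT.induction with
    | ind a ih =>
      apply towerFun_spec
      intro F
      rcases F.eq_empty_or_nonempty with rfl | hF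
      · simpa using (infinite_univ : (univ : Set ℕ).Infinite)
      · set c0 := F.max' hF with hc0
        have hc0F : c0 ∈ F := F.max'_mem hF
        have hfin : (⋃ c ∈ F, towerFun W hc h c0.1 \ towerFun W hc h c.1).Finite := by
          refine Set.Finite.biUnion F.finite_toSet ?_
          intro c hcF
          rcases (F.le_max' c hcF).lt_or_eq with hlt | heq
          · exact (ih c0.1 c0.2).2.1 c.1 hlt
          · rw [heq, ← hc0, diff_self]; exact finite_empty
        refine ((ih c0.1 c0.2).1.diff hfin).mono ?_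
        rintro x ⟨hx1, hx2⟩
        rw [mem_iInter₂]
        intro c hcF
        by_contra hcon
        exact hx2 (mem_iUnion₂.mpr ⟨c, hcF, hx1, hcon⟩)
  exact ⟨towerFun W hc h, fun a => (key a).1, fun a c hca => (key a).2.1 c hca,
    fun a => (key a).2.2⟩

theorem tower_gap (W : Type) [LinearOrder W] (hu : ¬ (univ : Set W).Countable)
    (h : W → ℕ → ℕ) (hmono : ∀ a, Monotone (h a))
    (hh : ∀ g : ℕ → ℕ, {a | ∃ m, ∀ n, m ≤ n → h a n ≤ g n}.Countable)
    (T : W → Set ℕ) (hinf : ∀ a, (T a).Infinite)
    (hT : ∀ a n, (T a ∩ Iio (h a n)).ncard ≤ n) (m : ℕ → ℕ) (hm : StrictMono m) :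
    ∃ a, {n | T a ∩ Ico (m n) (m (n + 1)) = ∅}.Infinite := by
  by_contra hcon
  push Not at hcon
  apply hu
  refine (hh (fun n => m (2 * n + 1))).mono ?_
  intro a _
  have hfin : {n | T a ∩ Ico (m n) (m (n + 1)) = ∅}.Finite := by
    have := hcon a
    simpa using this
  obtain ⟨n0, hn0⟩ := hfin.bddAbove
  have hne : ∀ k, ∃ x ∈ T a, m (n0 + 1 + k) ≤ x ∧ x < m (n0 + 1 + k + 1) := by
    intro k
    by_contra hc
    push Not at hc
    have : n0 + 1 + k ∈ {n | T a ∩ Ico (m n) (m (n + 1)) = ∅} := by
      rw [mem_setOf_eq, eq_empty_iff_forall_notMem]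
      rintro x ⟨hx, hx1, hx2⟩
      exact absurd hx2 (not_lt.mpr (hc x hx hx1))
    have := hn0 this
    omega
  choose x hxT hx1 hx2 using hne
  have hxm : StrictMono x := strictMono_nat_of_lt_succ fun k => by
    have h1 := hx2 k
    have h2 := hx1 (k + 1)
    have e : n0 + 1 + (k + 1) = n0 + 1 + k + 1 := by ring
    rw [e] at h2
    omega
  have hlt : ∀ j, h a j < m (n0 + 1 + j + 1) := by
    intro j
    by_contra hc
    rw [not_lt] at hc
    have hsub : x '' Iic j ⊆ T a ∩ Iio (h a j) := by
      rintro _ ⟨k, hk, rfl⟩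
      refine ⟨hxT k, ?_⟩
      have hk' : k ≤ j := hk
      have h1 : x k ≤ x j := hxm.monotone hk'
      have h2 := hx2 j
      show x k < h a j
      omega
    have h1 := ncard_le_ncard hsub ((finite_Iio (h a j)).inter_of_right _)
    rw [ncard_image_of_injective _ hxm.injective, ← Finset.coe_Iic, ncard_coe_finset,
      Nat.card_Iic] at h1
    have h2 := hT a j
    omega
  refine ⟨n0 + 1, fun n hn => ?_⟩
  have h1 := hlt n
  have h2 : m (n0 + 1 + n + 1) ≤ m (2 * n + 1) := hm.monotone (by omega)
  exact (lt_of_lt_of_le h1 h2).le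

end Pool.Agent.Lib.MP_4d8715_gt.KR
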